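import Pool.Agent.ISO.StmtsM

/-!
# Squad ISO, row OUM: the zeta function of the model at the origin, moved to the point
-/

set_option autoImplicit false
set_option linter.unusedVariables false

namespace Pool.Agent.ISO.H81

open MvPolynomial Pool.Agent.Helper6_Mono Pool.Agent.ISO

theorem oum (h1 : RhoStmt) (h2 : ZrmStmt) (h3 : PapStmt) : OumStmt := by
  intro k _ σ _ f f1 p hp h0 S hS hZ s hs
  obtain ⟨he, ρ, hρ, hρL⟩ := h1 k σ f f1 p hp h0
  have hee : cls (mv f p hp (GSch.base f1)) * cls (mv f p hp (GSch.base f1)) =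
      cls (mv f p hp (GSch.base f1)) := he (GSch.base f1)
  have hω : ∀ m : ℕ, m ≠ 0 → m • ((((1 : ℚ) / m : ℚ)) : QZ) = 0 := by
    intro m hm
    rw [← AddCircle.coe_nsmul, nsmul_eq_mul, mul_one_div_cancel (by exact_mod_cast hm)]
    exact AddCircle.coe_period 1
  have hsm : ∀ (m : ℕ) (hm : m ≠ 0),
      s m = cls (mv f p hp (XJet f1 m hm)) * Lpow f (-(m * Nat.card σ)) := by
    intro m hm
    have hP := h3 k σ f f1 p hp h0 _ _ (RingPart.pres_jet (f := f1) m hm (hω m hm))
    have hv := RingPart.val_eq hP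
    have hL : Lpow f (-(m * Nat.card σ)) = ((LL f)⁻¹ : (MM f)ˣ) ^ (m * Nat.card σ) := by
      unfold Lpow
      rw [← Units.val_pow_eq_pow_val, inv_pow, ← zpow_natCast, ← zpow_neg]
      push_cast
      rfl
    rw [hs m hm (hω m hm), hL, mul_comm]
    exact congrArg (fun z : MM f => z * (((LL f)⁻¹ : (MM f)ˣ) : MM f) ^ (m * Nat.card σ)) hv
  have hes : ∀ m : ℕ, m ≠ 0 → cls (mv f p hp (GSch.base f1)) * s m = s m := by
    intro m hm
    rw [hsm m hm, ← mul_assoc, he]
  have hG := h2 (MM f1) (MM f) (LL f1) (LL f) (cls (mv f p hp (GSch.base f1))) hee ρ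
    (by
      have := hρL 1
      unfold Lpow at this
      rw [zpow_one, zpow_one] at this
      exact this) S hS (Zf f1) hZ (PowerSeries.mk fun m => if m = 0 then 0 else s m)
    (by
      intro m
      rw [PowerSeries.coeff_mk, Zf, PowerSeries.coeff_mk]
      unfold zetaCoeff
      split_ifs with hm
      · rw [map_zero, map_zero]
      · rw [hsm m hm, map_mul, map_mul, hρ, hρL])
  have hG2 : PowerSeries.C (cls (mv f p hp (GSch.base f1))) *
      (PowerSeries.mk fun m => if m = 0 then (0 : MM f) else s m) =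
      PowerSeries.mk fun m => if m = 0 then (0 : MM f) else s m := by
    ext m
    rw [PowerSeries.coeff_C_mul, PowerSeries.coeff_mk]
    split_ifs with hm
    · rw [mul_zero]
    · exact hes m hm
  rw [hG2] at hG
  have hs0 : PowerSeries.mk s = (PowerSeries.mk fun m => if m = 0 then (0 : MM f) else s m) +
      algebraMap (MM f) (PowerSeries (MM f)) (s 0) := by
    ext m
    rw [map_add, PowerSeries.coeff_mk, PowerSeries.coeff_mk]
    show s m = (if m = 0 then (0 : MM f) else s m) +
      PowerSeries.coeff m (PowerSeries.C (s 0))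
    rw [PowerSeries.coeff_C]
    split_ifs with hm
    · rw [hm, zero_add]
    · rw [add_zero]
  show PowerSeries.mk s ∈ Algebra.adjoin (MM f) (gens f S)
  rw [hs0]
  exact add_mem hG (Subalgebra.algebraMap_mem _ _)

end Pool.Agent.ISO.H81
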